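import Pool.Agent.Helper99.SZ.Stmts

set_option autoImplicit false

/-! Module PHSa of the crew table `sz_mods` (adapted from the modules MINK and PHa of helper9). -/

namespace Pool.Helper99.SZ

open NumberField NumberField.mixedEmbedding NumberField.InfinitePlace
open scoped NNReal ENNReal

theorem phsa_mink (K : Type) [Field K] [NumberField K] (I : Ideal (𝓞 K)) (hI : I ≠ ⊥)
    (f : InfinitePlace K → ℝ) (hf : ∀ w, 0 < f w)
    (hlt : (Ideal.absNorm I : ℝ) * Real.sqrt |(discr K : ℝ)| < ∏ w, f w ^ mult w) :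
    ∃ c : 𝓞 K, c ∈ I ∧ c ≠ 0 ∧ ∀ w : InfinitePlace K, w (c : K) < f w := by
  classical
  obtain ⟨J, hJ⟩ : ∃ J : (FractionalIdeal (nonZeroDivisors (𝓞 K)) K)ˣ,
      (J : FractionalIdeal (nonZeroDivisors (𝓞 K)) K) = I :=
    ⟨FractionalIdeal.mk0 K ⟨I, mem_nonZeroDivisors_iff_ne_zero.2 hI⟩,
      FractionalIdeal.coe_mk0 _ _⟩
  have key : minkowskiBound K J <
      MeasureTheory.volume (convexBodyLT K (fun w => (f w).toNNReal)) := by
    have h2 : (Ideal.absNorm I : ℝ≥0) * NNReal.sqrt ‖discr K‖₊ <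
        ∏ w, (f w).toNNReal ^ mult w := by
      rw [← NNReal.coe_lt_coe]
      have e1 : ((NNReal.sqrt ‖discr K‖₊ : ℝ≥0) : ℝ) = Real.sqrt |(discr K : ℝ)| := by
        rw [Real.coe_sqrt, coe_nnnorm, Int.norm_eq_abs]
      have e2 : ((∏ w, (f w).toNNReal ^ mult w : ℝ≥0) : ℝ) = ∏ w, f w ^ mult w := by
        rw [NNReal.coe_prod]
        refine Finset.prod_congr rfl fun w _ => ?_
        rw [NNReal.coe_pow, Real.coe_toNNReal _ (hf w).le]
      rw [NNReal.coe_mul, e1, e2, NNReal.coe_natCast]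
      exact hlt
    have h3 : (2 : ℝ≥0) ^ (nrRealPlaces K + nrComplexPlaces K) *
        ((Ideal.absNorm I : ℝ≥0) * NNReal.sqrt ‖discr K‖₊) <
        convexBodyLTFactor K * ∏ w, (f w).toNNReal ^ mult w := by
      have h4 : (2 : ℝ≥0) ^ (nrRealPlaces K + nrComplexPlaces K) ≤ convexBodyLTFactor K := by
        have h5 : (2 : ℝ≥0) ≤ NNReal.pi := by
          rw [← NNReal.coe_le_coe]
          exact Real.two_le_pi
        rw [pow_add]
        exact mul_le_mul le_rfl (pow_le_pow_left₀ (by norm_num) h5 _) (by positivity)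
          (by positivity)
      calc (2 : ℝ≥0) ^ (nrRealPlaces K + nrComplexPlaces K) *
          ((Ideal.absNorm I : ℝ≥0) * NNReal.sqrt ‖discr K‖₊)
          < (2 : ℝ≥0) ^ (nrRealPlaces K + nrComplexPlaces K) *
              ∏ w, (f w).toNNReal ^ mult w :=
            mul_lt_mul_of_pos_left h2 (by positivity)
        _ ≤ convexBodyLTFactor K * ∏ w, (f w).toNNReal ^ mult w :=
            mul_le_mul h4 le_rfl (by positivity) (by positivity)
    rw [convexBodyLT_volume, minkowskiBound, volume_fundamentalDomain_fractionalIdealLatticeBasis,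
      hJ, FractionalIdeal.coeIdeal_absNorm,
      mixedEmbedding.finrank, volume_fundamentalDomain_latticeBasis]
    have e6 : ENNReal.ofReal (((Ideal.absNorm I : ℕ) : ℚ) : ℝ) =
        (((Ideal.absNorm I : ℝ≥0)) : ℝ≥0∞) := by
      rw [Rat.cast_natCast, ENNReal.ofReal_natCast]
      norm_cast
    have e3 : ENNReal.ofReal (((Ideal.absNorm I : ℕ) : ℚ) : ℝ) *
        ((2⁻¹ : ℝ≥0∞) ^ nrComplexPlaces K * ((NNReal.sqrt ‖discr K‖₊ : ℝ≥0) : ℝ≥0∞)) *
        2 ^ Module.finrank ℚ K =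
        (((2 : ℝ≥0) ^ (nrRealPlaces K + nrComplexPlaces K) *
          ((Ideal.absNorm I : ℝ≥0) * NNReal.sqrt ‖discr K‖₊) : ℝ≥0) : ℝ≥0∞) := by
      rw [← card_add_two_mul_card_eq_rank K, e6]
      have e4 : (2 : ℝ≥0∞) ^ (nrRealPlaces K + 2 * nrComplexPlaces K) =
          2 ^ nrComplexPlaces K * 2 ^ (nrRealPlaces K + nrComplexPlaces K) := by
        rw [← pow_add]; congr 1; ring
      have e5 : (2⁻¹ : ℝ≥0∞) ^ nrComplexPlaces K * 2 ^ nrComplexPlaces K = 1 := by
        rw [← mul_pow, ENNReal.inv_mul_cancel (by norm_num) (by norm_num), one_pow]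
      rw [e4, ENNReal.coe_mul, ENNReal.coe_pow, ENNReal.coe_mul]
      calc (((Ideal.absNorm I : ℝ≥0)) : ℝ≥0∞) *
            ((2⁻¹ : ℝ≥0∞) ^ nrComplexPlaces K * ((NNReal.sqrt ‖discr K‖₊ : ℝ≥0) : ℝ≥0∞)) *
            (2 ^ nrComplexPlaces K * 2 ^ (nrRealPlaces K + nrComplexPlaces K))
          = ((2⁻¹ : ℝ≥0∞) ^ nrComplexPlaces K * 2 ^ nrComplexPlaces K) *
              (2 ^ (nrRealPlaces K + nrComplexPlaces K) * ((((Ideal.absNorm I : ℝ≥0)) : ℝ≥0∞) *
                ((NNReal.sqrt ‖discr K‖₊ : ℝ≥0) : ℝ≥0∞))) := by ring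
        _ = _ := by rw [e5, one_mul]; rfl
    rw [e3, ← ENNReal.coe_mul]
    exact ENNReal.coe_lt_coe.2 h3
  obtain ⟨x, hx, hx0, hw⟩ := exists_ne_zero_mem_ideal_lt K J key
  rw [hJ] at hx
  obtain ⟨c, hc, rfl⟩ := (FractionalIdeal.mem_coeIdeal _).1 hx
  refine ⟨c, hc, ?_, fun w => ?_⟩
  · rintro rfl
    exact hx0 (map_zero _)
  · have := hw w
    rwa [Real.coe_toNNReal _ (hf w).le] at this

theorem st_PHSa : ST_PHSa := by
  intro K _ _ h3 h hh hD I hI t ht
  classical
  have hd0 : (discr K : ℝ) ≠ 0 := Int.cast_ne_zero.2 (discr_ne_zero K)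
  have hD1 : (1 : ℝ) ≤ |(discr K : ℝ)| := by
    have := Int.one_le_abs (discr_ne_zero K)
    exact_mod_cast this
  have hNI0 : Ideal.absNorm I ≠ 0 := by
    intro h0
    exact hI (Ideal.absNorm_eq_zero_iff.1 h0)
  have hNI1 : (1 : ℝ) ≤ (Ideal.absNorm I : ℝ) := by
    exact_mod_cast Nat.one_le_iff_ne_zero.2 hNI0
  have hNIpos : (0 : ℝ) < (Ideal.absNorm I : ℝ) := by linarith
  set s : ℝ := Real.sqrt |(discr K : ℝ)| with hs
  have hs1 : 1 ≤ s := Real.one_le_sqrt.2 hD1
  have hlogs : Real.log s ≤ h / 2 := by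
    rw [hs, Real.log_sqrt (abs_nonneg _)]
    linarith
  set u : ℝ := Real.log (2 * s) / 3 with hu
  have hu2 : u ≤ h / 2 := by
    rw [hu, Real.log_mul (by norm_num) (by positivity)]
    have := Real.log_two_lt_d9
    linarith
  have hu0 : 0 ≤ u := div_nonneg (Real.log_nonneg (by linarith)) (by norm_num)
  have hsum : ∑ w : InfinitePlace K, (mult w : ℝ) = 3 := by
    have := InfinitePlace.sum_mult_eq (K := K)
    rw [h3] at this
    exact_mod_cast this
  have hprod : ∏ w : InfinitePlace K, Real.exp (t w + u) ^ mult w =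
      (Ideal.absNorm I : ℝ) * (2 * s) := by
    have e1 : ∀ w : InfinitePlace K, Real.exp (t w + u) ^ mult w =
        Real.exp ((mult w : ℝ) * t w + (mult w : ℝ) * u) := by
      intro w
      rw [← Real.exp_nat_mul, mul_add]
    rw [Finset.prod_congr rfl fun w _ => e1 w, ← Real.exp_sum, Finset.sum_add_distrib, ht,
      ← Finset.sum_mul, hsum, hu, mul_div_cancel₀ _ (by norm_num : (3 : ℝ) ≠ 0), Real.exp_add,
      Real.exp_log hNIpos, Real.exp_log (by positivity)]
  obtain ⟨c, hcI, hc, hw⟩ := phsa_mink K I hI (fun w => Real.exp (t w + u))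
    (fun w => Real.exp_pos _) (by
    rw [hprod]
    show (Ideal.absNorm I : ℝ) * s < (Ideal.absNorm I : ℝ) * (2 * s)
    nlinarith)
  have hcK : (c : K) ≠ 0 := RingOfIntegers.coe_ne_zero_iff.2 hc
  have hpos : ∀ w : InfinitePlace K, 0 < w (c : K) := fun w => InfinitePlace.pos_iff.2 hcK
  have hN : ∏ w : InfinitePlace K, w (c : K) ^ mult w = |(Algebra.norm ℤ c : ℝ)| := by
    rw [InfinitePlace.prod_eq_abs_norm, ← Algebra.coe_norm_int c]
    push_cast
    rfl
  obtain ⟨J, hJ⟩ : I ∣ Ideal.span {c} := by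
    rw [Ideal.dvd_span_singleton]
    exact hcI
  have hJ0 : J ≠ ⊥ := by
    rintro rfl
    rw [Ideal.mul_bot, Ideal.span_singleton_eq_bot] at hJ
    exact hc hJ
  have hNJ0 : Ideal.absNorm J ≠ 0 := by
    intro h0
    exact hJ0 (Ideal.absNorm_eq_zero_iff.1 h0)
  have hNJ1 : (1 : ℝ) ≤ (Ideal.absNorm J : ℝ) := by
    exact_mod_cast Nat.one_le_iff_ne_zero.2 hNJ0
  have hNIJ : |(Algebra.norm ℤ c : ℝ)| = (Ideal.absNorm I : ℝ) * (Ideal.absNorm J : ℝ) := by
    have e0 : Ideal.absNorm (Ideal.span {c}) = Ideal.absNorm I * Ideal.absNorm J := by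
      rw [hJ, map_mul]
    rw [Ideal.absNorm_span_singleton] at e0
    have e1 : (((Algebra.norm ℤ c).natAbs : ℕ) : ℝ) = |(Algebra.norm ℤ c : ℝ)| := by
      rw [Nat.cast_natAbs, Int.cast_abs]
    rw [← e1, e0]
    push_cast
    rfl
  have hNJ2 : (Ideal.absNorm J : ℝ) ≤ 2 * s := by
    have h1 : |(Algebra.norm ℤ c : ℝ)| ≤ (Ideal.absNorm I : ℝ) * (2 * s) := by
      rw [← hN, ← hprod]
      exact Finset.prod_le_prod (fun w _ => pow_nonneg (hpos w).le _)
        fun w _ => pow_le_pow_left₀ (hpos w).le (hw w).le _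
    rw [hNIJ] at h1
    exact le_of_mul_le_mul_left h1 hNIpos
  have hX : ∀ w : InfinitePlace K, Real.log (w (c : K)) - t w ≤ u := by
    intro w
    have := Real.log_le_log (hpos w) (hw w).le
    rw [Real.log_exp] at this
    linarith
  have hsumX : 0 ≤ ∑ w : InfinitePlace K, (mult w : ℝ) * (Real.log (w (c : K)) - t w) := by
    have e1 : ∑ w : InfinitePlace K, (mult w : ℝ) * (Real.log (w (c : K)) - t w) =
        Real.log (Ideal.absNorm J) := by
      have e3 : ∑ w : InfinitePlace K, (mult w : ℝ) * (Real.log (w (c : K)) - t w) =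
          ∑ w : InfinitePlace K, (mult w : ℝ) * Real.log (w (c : K)) -
            ∑ w : InfinitePlace K, (mult w : ℝ) * t w := by
        rw [← Finset.sum_sub_distrib]
        exact Finset.sum_congr rfl fun w _ => mul_sub _ _ _
      have e4 : ∑ w : InfinitePlace K, (mult w : ℝ) * Real.log (w (c : K)) =
          Real.log |(Algebra.norm ℤ c : ℝ)| := by
        rw [← hN, Real.log_prod (fun w _ => (pow_pos (hpos w) _).ne')]
        exact Finset.sum_congr rfl fun w _ => (Real.log_pow _ _).symm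
      rw [e3, ht, e4, hNIJ, Real.log_mul hNIpos.ne' (by linarith)]
      ring
    rw [e1]
    exact Real.log_nonneg hNJ1
  refine ⟨c, hc, fun w => ?_, J, ⟨hJ0, hNJ2⟩, hJ⟩
  have hm1 : (1 : ℝ) ≤ (mult w : ℝ) := by exact_mod_cast InfinitePlace.mult_pos
  have hsplit := Finset.add_sum_erase Finset.univ
    (fun w : InfinitePlace K => (mult w : ℝ) * (Real.log (w (c : K)) - t w))
    (Finset.mem_univ w)
  have hsplit2 := Finset.add_sum_erase Finset.univ
    (fun w : InfinitePlace K => (mult w : ℝ)) (Finset.mem_univ w)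
  have hle : ∑ w' ∈ Finset.univ.erase w, (mult w' : ℝ) * (Real.log (w' (c : K)) - t w') ≤
      ∑ w' ∈ Finset.univ.erase w, (mult w' : ℝ) * u :=
    Finset.sum_le_sum fun w' _ => mul_le_mul_of_nonneg_left (hX w') (Nat.cast_nonneg _)
  rw [← Finset.sum_mul] at hle
  rw [hsum] at hsplit2
  have hlow : -(3 * u) ≤ (mult w : ℝ) * (Real.log (w (c : K)) - t w) := by
    have e1 : ∑ w' ∈ Finset.univ.erase w, (mult w' : ℝ) = 3 - (mult w : ℝ) := by linarith
    rw [e1] at hle
    nlinarith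
  rw [abs_le]
  constructor
  · by_cases hneg : 0 ≤ Real.log (w (c : K)) - t w
    · linarith
    · push Not at hneg
      have : (mult w : ℝ) * (Real.log (w (c : K)) - t w) ≤ Real.log (w (c : K)) - t w := by
        nlinarith
      linarith
  · have := hX w
    linarith

end Pool.Helper99.SZ
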